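import Pool.Agent.H31.SW.TargetsA
import Pool.Agent.H56.DW.BQ

/-! Module BQ of the board swl_modules: the bound for the dual sum. -/

set_option autoImplicit false

open NumberField NumberField.InfinitePlace NumberField.Units
  NumberField.Units.dirichletUnitTheorem MeasureTheory Set Filter Complex
open scoped nonZeroDivisors ENNReal

namespace Pool.Agent.H89.SWL

open Pool.Agent.H31.SW
open Pool.Agent.H25.HK Pool.Agent.H23.LB Pool.Agent.H23.LC
open Pool.Agent.H28.RC (Rep ft idl)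
open Pool.Agent.H29.DW (dg Rl lf wv Pos Wg cpar Ci om zs rv Wt)

private lemma norm_EE (z : ℂ) : ‖EE z‖ = 1 := by
  unfold EE
  rw [← Complex.ofReal_neg]
  exact Complex.norm_exp_ofReal_mul_I _

private lemma pz_zero (r : Bool) {x : ℂ} (h : 1 / 10000 ≤ ‖x‖) : pz r x = 0 := by
  unfold pz
  have : bz x = 0 := by
    apply bz.zero_of_le_dist
    rw [dist_zero_right]
    exact h
  rw [this]
  simp

private lemma pz_norm (r : Bool) (x : ℂ) : ‖pz r x‖ ≤ 1 := by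
  unfold pz
  rw [Complex.norm_real, Real.norm_of_nonneg bz.nonneg]
  exact bz.le_one

private lemma pz_meas (r : Bool) : Measurable (pz r) := by
  unfold pz
  exact Complex.measurable_ofReal.comp bz.continuous.measurable

private lemma tf {K : Type} [Field K] [NumberField K] (c : InfinitePlace K → ℂ) :
    Tf (fun v => GG (pz (rv v)) (c v)) := by
  refine ⟨fun v => ?_, fun v w => ?_, fun v w hw => ?_⟩
  · unfold GG EE
    have h1 : Measurable (fun w : ℂ => pz (rv v) (w - 1)) :=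
      (pz_meas (rv v)).comp (measurable_id.sub_const 1)
    have h2 : Measurable (fun w : ℂ => ((c v * Complex.log w).re : ℝ)) :=
      Complex.measurable_re.comp (Complex.measurable_log.const_mul (c v))
    exact (Complex.measurable_exp.comp
      ((Complex.measurable_ofReal.comp h2).neg.mul_const I)).mul h1
  · unfold GG
    rw [norm_mul, norm_EE, one_mul]
    exact pz_norm _ _
  · unfold GG
    rw [pz_zero (rv v) (by linarith), mul_zero]

section

variable {K : Type} [Field K] [NumberField K]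

private lemma mem_du {f : Ideal (𝓞 K)} (hf : f ≠ ⊥) {M : FI K} (hM : M ≠ 0) {l : K}
    (hl : l ∈ (f : FI K) * du K ((f : FI K) * M)) : l ∈ du K M := by
  have hfM : (f : FI K) * M ≠ 0 :=
    mul_ne_zero (FractionalIdeal.coeIdeal_ne_zero.mpr hf) hM
  have h : (f : FI K) * du K ((f : FI K) * M) ≤ du K M := by
    unfold du
    rw [FractionalIdeal.le_dual_iff ℤ ℚ hM]
    have h1 := FractionalIdeal.dual_mul_self ℤ ℚ hfM
    rw [← h1]
    refine le_of_eq ?_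
    ring
  exact h hl

private lemma ch_per {f : Ideal (𝓞 K)} (hf : f ≠ ⊥) (D : Sys K f) (χ : HG K f) (i : D.ι)
    {l : K} (hl : l ∈ (f : FI K) * du K ((f : FI K) * D.M i)) (x : K) :
    ch D χ i (x + l) = ch D χ i x := by
  have hM := D.reps.1 i
  have hl' := mem_du hf hM hl
  unfold ch ft
  refine Finset.sum_congr rfl fun r hr => ?_
  congr 1
  have h1 := Pool.Agent.H56.DW.trace_one (D.M i) hM ((D.rep i).1 r hr) hl'
  have h2 : (2 * Real.pi * I * ((Algebra.trace ℚ K (r * (x + l)) : ℚ) : ℂ)) =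
      (2 * Real.pi * I * ((Algebra.trace ℚ K (r * x) : ℚ) : ℂ)) +
      (2 * Real.pi * I * ((Algebra.trace ℚ K (r * l) : ℚ) : ℂ)) := by
    rw [mul_add, map_add]
    push_cast
    ring
  rw [h2, Complex.exp_add, h1, mul_one]

private lemma card_le {f : Ideal (𝓞 K)} {M : FI K} {X Y : Finset K} (hX : Rep K f M X)
    (hY : Rep K f M Y) : X.card ≤ Y.card := by
  classical
  have h : ∀ r ∈ X, ∃ y ∈ Y, r - y ∈ (f : FI K) * M := fun r hr => by
    obtain ⟨y, ⟨hy, hy'⟩, -⟩ := hY.2 r (hX.1 r hr)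
    exact ⟨y, hy, hy'⟩
  choose g hg hg' using h
  refine Finset.card_le_card_of_injOn (fun r => if hr : r ∈ X then g r hr else 0) ?_ ?_
  · intro r hr
    have hr' : r ∈ X := hr
    simp only [dif_pos hr']
    exact hg r hr'
  · intro r hr s hs hrs
    have hr' : r ∈ X := hr
    have hs' : s ∈ X := hs
    simp only [dif_pos hr', dif_pos hs'] at hrs
    have h1 := hg' r hr'
    have h2 := hg' s hs'
    rw [← hrs] at h2
    have h3 := Pool.Agent.H29.DW.sub_mem' h1 h2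
    rw [show r - g r hr' - (s - g r hr') = r - s by ring] at h3
    obtain ⟨r₀, -, hu⟩ := hX.2 r (hX.1 r hr')
    have h4 := hu r ⟨hr', by
      have := Pool.Agent.H29.DW.sub_mem' h1 h1
      rwa [show r - g r hr' - (r - g r hr') = r - r by ring] at this⟩
    have h5 := hu s ⟨hs', h3⟩
    rw [h4, h5]

private lemma ch_norm (hCG : U_CG) (hRX : Pool.Agent.H28.RC.T_RX) {f : Ideal (𝓞 K)} (hf : f ≠ ⊥)
    (D : Sys K f) (χ : HG K f) (i : D.ι) (x : K) : ‖ch D χ i x‖ ≤ Nf K f := by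
  obtain ⟨Y, hY, hYc⟩ := hRX K f (D.M i) hf (D.reps.1 i)
  have h1 := Pool.Agent.H56.DW.norm_ft_le (D.X i) (cg χ (D.M i))
    (fun r hr => (hCG K _ χ (D.M i) hf (D.reps.1 i)).2.1 r ((D.rep i).1 r hr)) x
  have h2 := card_le (D.rep i) hY
  unfold ch
  refine h1.trans ?_
  unfold Nf
  rw [← hYc]
  exact_mod_cast h2

private lemma PP_le {n : ℕ} (hn : Module.finrank ℚ K = n) (k : InfinitePlace K → ℤ)
    (ν : InfinitePlace K → ℝ) (t : ℝ) :
    PP (fun v => 1 + ‖cpar k ν t v‖) ≤ 2 ^ n * Ci k ν t := by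
  unfold PP Ci
  rw [← Pool.Agent.H29.DW.sum_mult hn, ← Finset.prod_pow_eq_pow_sum, ← Finset.prod_mul_distrib]
  refine Finset.prod_le_prod (fun v _ => by positivity) fun v _ => ?_
  rw [← mul_pow]
  refine pow_le_pow_left₀ (by positivity) ?_ _
  have := Pool.Agent.H29.DW.norm_cpar_le k ν t v
  linarith

private lemma Ci_le' {n : ℕ} (hn : Module.finrank ℚ K = n) (k : InfinitePlace K → ℤ)
    (ν : InfinitePlace K → ℝ) (t : ℝ)
    (hk : ∀ v : InfinitePlace K, v.IsReal → k v = 0 ∨ k v = 1) :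
    Ci k ν t ≤ 3 ^ n * PP (fun v => 1 + ‖cpar k ν t v‖) := by
  unfold PP Ci
  rw [← Pool.Agent.H29.DW.sum_mult hn, ← Finset.prod_pow_eq_pow_sum, ← Finset.prod_mul_distrib]
  refine Finset.prod_le_prod (fun v _ => by positivity) fun v _ => ?_
  rw [← mul_pow]
  refine pow_le_pow_left₀ (by positivity) ?_ _
  have h1 := Pool.Agent.H29.DW.le_norm_cpar k ν t hk v
  have h2 : max 1 ‖cpar k ν t v‖ ≤ 1 + ‖cpar k ν t v‖ :=
    max_le (by linarith [norm_nonneg (cpar k ν t v)]) (by linarith)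
  linarith

end

/-- the numerical part -/
private lemma num {n : ℕ} {c₀ w W s T C B N hR dk Y P Ci : ℝ} (hc₀ : 0 < c₀) (hw : 1 ≤ w)
    (hW : c₀ ≤ W) (hs : 0 < s) (hsN : s ^ 2 = N) (hT : 0 ≤ T) (hC : 0 ≤ C) (hB : 0 ≤ B)
    (hhR : 0 ≤ hR) (hdk : 0 ≤ dk) (hY : 0 ≤ Y) (hP0 : 0 ≤ P) (hP : P ≤ 2 ^ n * Ci)
    (hCi : 0 ≤ Ci)
    (h : w * W * s * T ≤ C * B * N * hR * N * dk * Y * P ^ (27 / 164 : ℝ)) :
    T ≤ c₀⁻¹ * C * 2 ^ n * B * hR * N ^ (3 / 2 : ℝ) * dk * Y * Ci ^ (27 / 164 : ℝ) := by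
  have h1 : P ^ (27 / 164 : ℝ) ≤ 2 ^ n * Ci ^ (27 / 164 : ℝ) := by
    have h2 : (1 : ℝ) ≤ 2 ^ n := one_le_pow₀ (by norm_num)
    have h3 : ((2 : ℝ) ^ n) ^ (27 / 164 : ℝ) ≤ 2 ^ n := by
      calc ((2 : ℝ) ^ n) ^ (27 / 164 : ℝ) ≤ ((2 : ℝ) ^ n) ^ (1 : ℝ) :=
            Real.rpow_le_rpow_of_exponent_le h2 (by norm_num)
        _ = 2 ^ n := Real.rpow_one _
    calc P ^ (27 / 164 : ℝ) ≤ (2 ^ n * Ci) ^ (27 / 164 : ℝ) :=
          Real.rpow_le_rpow hP0 hP (by norm_num)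
      _ = ((2 : ℝ) ^ n) ^ (27 / 164 : ℝ) * Ci ^ (27 / 164 : ℝ) :=
          Real.mul_rpow (by positivity) hCi
      _ ≤ 2 ^ n * Ci ^ (27 / 164 : ℝ) :=
          mul_le_mul_of_nonneg_right h3 (Real.rpow_nonneg hCi _)
  have hN32 : N ^ (3 / 2 : ℝ) = s ^ 3 := by
    rw [← hsN, ← Real.rpow_natCast, ← Real.rpow_mul hs.le, ← Real.rpow_natCast s 3]
    norm_num
  have hZ : 0 ≤ Ci ^ (27 / 164 : ℝ) := Real.rpow_nonneg hCi _
  have h4 : c₀ ≤ w * W := by
    calc c₀ = 1 * c₀ := (one_mul _).symm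
      _ ≤ w * W := mul_le_mul hw hW hc₀.le (by linarith)
  have h5 : c₀ * s * T ≤ w * W * s * T := by
    have : 0 ≤ s * T := mul_nonneg hs.le hT
    nlinarith
  have h6 : 0 ≤ C * B * N * hR * N * dk * Y := by
    have : 0 ≤ N := by rw [← hsN]; positivity
    positivity
  have h7 : c₀ * s * T ≤ C * B * N * hR * N * dk * Y * (2 ^ n * Ci ^ (27 / 164 : ℝ)) :=
    (h5.trans h).trans (mul_le_mul_of_nonneg_left h1 h6)
  rw [hN32]
  have h8 : C * B * N * hR * N * dk * Y * (2 ^ n * Ci ^ (27 / 164 : ℝ)) =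
      c₀ * s * (c₀⁻¹ * C * 2 ^ n * B * hR * s ^ 3 * dk * Y * Ci ^ (27 / 164 : ℝ)) := by
    rw [← hsN]
    field_simp
  rw [h8] at h7
  exact le_of_mul_le_mul_left h7 (mul_pos hc₀ hs)

open scoped Classical in
/-- (BQ) -/
theorem pf_BQ (hUQ : W_UQ) (hWL : W_WL) (hBI : W_BI) (hCG : U_CG)
    (hRX : Pool.Agent.H28.RC.T_RX) (hRR : Pool.Agent.H23.LB.T_RR) : W_BQ := by
  intro n hn κ hκ hκ1
  obtain ⟨C, hC0, hC⟩ := hBI n hn κ hκ hκ1
  obtain ⟨c₀, hc₀, hc⟩ := hWL n hn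
  refine ⟨c₀⁻¹ * C * 2 ^ n, by positivity, fun K _ _ hK f hf D χ t B v hB hWt => ?_⟩
  have hreps : Reps K (fun i => du K ((f : FI K) * D.M i)) :=
    (hRR K D.ι _ ((hRR K D.ι D.M D.reps).1 _ hf)).2.1
  have hd1 := Pool.Agent.H56.DW.one_le_disc (K := K)
  have hf1 := Pool.Agent.H56.DW.one_le_Nf hf
  have hCi := Pool.Agent.H29.DW.one_le_Ci χ.k χ.ν t
  obtain ⟨c, hcdef⟩ : ∃ c : InfinitePlace K → ℂ, c = cpar (-χ.k) (-χ.ν) (-t) := ⟨_, rfl⟩
  have hnc : (fun v => 1 + ‖c v‖) = fun v => 1 + ‖cpar χ.k χ.ν t v‖ := by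
    funext v
    rw [hcdef, Pool.Agent.H29.DW.cpar_neg]
    simp
  obtain ⟨A, hA⟩ : ∃ A : ℝ, A = |(discr K : ℝ)| * Nf K f * Ci χ.k χ.ν t := ⟨_, rfl⟩
  rw [← hA] at hWt ⊢
  have hA1 : 1 ≤ A := by
    rw [hA]
    exact one_le_mul_of_one_le_of_one_le (one_le_mul_of_one_le_of_one_le hd1 hf1) hCi
  have hPC := Ci_le' hK χ.k χ.ν t χ.real_k
  have hX2 : Real.sqrt A ^ 2 ≤ 3 ^ n * (dK K * Nf K f * PP (fun v => 1 + ‖c v‖)) := by
    rw [Real.sq_sqrt (by linarith), hnc, hA]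
    unfold dK
    calc |(discr K : ℝ)| * Nf K f * Ci χ.k χ.ν t ≤
        |(discr K : ℝ)| * Nf K f * (3 ^ n * PP (fun v => 1 + ‖cpar χ.k χ.ν t v‖)) := by gcongr
      _ = 3 ^ n * (|(discr K : ℝ)| * Nf K f * PP (fun v => 1 + ‖cpar χ.k χ.ν t v‖)) := by ring
  have key := hC K hK D.ι (fun i => du K ((f : FI K) * D.M i)) hreps f c (Real.sqrt A) B (Nf K f)
    v (fun i => ch D χ i) false hf
    (by
      rw [hcdef]
      intro w
      exact ((Pool.Agent.H29.DW.Prm_cpar (-χ.k) (-χ.ν) (-t)).par w).real)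
    (Real.one_le_sqrt.2 hA1) hX2 hB hWt (by linarith)
    (fun i x _ l hl => ch_per hf D χ i hl x)
    (fun i x _ => ch_norm hCG hRX hf D χ i x)
  have hU := hUQ K _ hf D χ (fun v => GG (pz (rv v)) (c v)) (-t) v (tf c)
    (Pool.Agent.H56.DW.Wt_bound hWt)
  have eT : ∀ J : NZI K, (Ideal.absNorm J.1 : ℂ) ^ (-(((-t : ℝ) : ℂ) * I : ℂ)) =
      (Ideal.absNorm J.1 : ℂ) ^ (t * I : ℂ) := by
    intro J
    congr 1
    push_cast
    ring
  simp only [eT] at hU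
  have hS : ENNReal.ofReal ‖(torsionOrder K : ℂ) *
      WG K (fun v => GG (pz (rv v)) (c v)) (-χ.k) (-χ.ν) (-t) *
        ((Real.sqrt (Nf K f) : ℝ) : ℂ) *
        ∑' J : NZI K, cd D χ J.1 * v (Ideal.absNorm J.1) *
          (Ideal.absNorm J.1 : ℂ) ^ (t * I : ℂ)‖ ≤
      ∑ i, ∫⁻ u in Fd K ×ˢ (univ : Set ℝ) ×ˢ An K,
        ENNReal.ofReal ‖∑' x : {x : K // x ∈ du K ((f : FI K) * D.M i) ∧ x ≠ 0}, ch D χ i x *
          v (Ideal.absNorm (idl K (du K ((f : FI K) * D.M i)) x)) *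
            pF (fun v => GG (pz (rv v)) (c v))
              (yM K (du K ((f : FI K) * D.M i)) u.2.1 (zs false u.1)) (om false u.2.2) x‖ := by
    rw [← hU]
    refine Pool.Agent.H56.DW.sum_int_le _ _ _ _ fun i a => ?_
    have e : (((-t : ℝ) : ℂ) * (a.2.1 : ℂ)) = (((-t) * a.2.1 : ℝ) : ℂ) := by push_cast; rfl
    rw [norm_mul, norm_mul, norm_mul (ek _ _), Pool.Agent.H56.DW.ec_norm,
      Pool.Agent.H56.DW.ek_norm, e, Complex.norm_exp_ofReal_mul_I, one_mul, one_mul, one_mul]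
  have hfin := hS.trans key
  have hHR : 0 ≤ (classNumber K : ℝ) * regulator K :=
    mul_nonneg (Nat.cast_nonneg _) (regulator_pos K).le
  have hPP0 : 0 ≤ PP (fun v => 1 + ‖c v‖) := by
    unfold PP
    exact Finset.prod_nonneg fun w _ => by positivity
  have hdk : 0 ≤ dK K ^ (13 / 8 : ℝ) := by
    unfold dK
    exact Real.rpow_nonneg (abs_nonneg _) _
  have hNf0 : 0 ≤ Nf K f := by linarith
  rw [ENNReal.ofReal_le_ofReal_iff (by positivity)] at hfin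
  have hsq : 0 < Real.sqrt (Nf K f) := Real.sqrt_pos.2 (by linarith)
  rw [norm_mul, norm_mul, norm_mul, Complex.norm_natCast, Complex.norm_real,
    Real.norm_of_nonneg hsq.le] at hfin
  have hW := hc K hK (-χ.k) (-χ.ν) (-t) (by
    have := χ.norm_zero
    simp only [Pi.neg_apply, mul_neg, Finset.sum_neg_distrib, this, neg_zero])
  rw [← hcdef] at hW
  have hXk : Real.sqrt A ^ (2 * κ) = A ^ κ := by
    rw [Real.sqrt_eq_rpow, ← Real.rpow_mul (by linarith)]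
    congr 1
    ring
  rw [hXk] at hfin
  have hPle : PP (fun v => 1 + ‖c v‖) ≤ 2 ^ n * Ci χ.k χ.ν t := by
    rw [hnc]
    exact PP_le hK χ.k χ.ν t
  exact num hc₀ (Pool.Agent.H56.DW.one_le_tor (K := K)) hW hsq (Real.sq_sqrt (by linarith))
    (norm_nonneg _) hC0 hB hHR hdk (Real.rpow_nonneg (by linarith) _) hPP0 hPle (by linarith)
    hfin

end Pool.Agent.H89.SWL
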